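import Pool.Agent.U30.BP.Diag
import Pool.Agent.H622R2.CoNP

/-!
# The difficulty of critical families is EXPSPACE-hard to compute, and not in NP
-/

namespace Pool.Agent.Results.MP_3da8ac_lc.ExpspaceHardNotNP

open Pool.Agent.NPC Pool.Agent.U30.BP

theorem hard {L : Set (List Bool)} (hL : InEXPSPACE L) :
    ∃ f : List Bool → List Bool, PolyTime f ∧
      ∀ x, ∃ U : Family, f x = bits (U, 1) ∧ IsFamily U ∧ Critical U ∧ (x ∈ L ↔ diff U ≤ 1) := by
  obtain ⟨U, hU, h1, h2, h3⟩ := exists_red hL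
  refine ⟨fun x => bits (U x, 1), ?_, fun x => ⟨U x, rfl, h1 x, h2 x, h3 x⟩⟩
  have e1 : PC (bits : List Bool → List Bool) (bits : Family × ℕ → List Bool)
      (fun x => (U x, 1)) := NPC.Poly.pair hU (NPC.Poly.const 1)
  have e2 : PC (fun x : List Bool => x) (bits : List Bool → List Bool) (fun x => x) := PC.ofBits
  obtain ⟨c, p, h⟩ := PC.comp e1 e2
  exact PC.toPolyTime ⟨c, p, h⟩

theorem promise : ¬ ∃ A : Set (List Bool), InNP A ∧
    ∀ U : Family, IsFamily U → Critical U → (bits (U, 1) ∈ A ↔ diff U ≤ 1) := by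
  rintro ⟨A, hA, h⟩
  obtain ⟨L, hL, hnot⟩ := exists_expspace_not_np
  obtain ⟨f, hf, hfx⟩ := hard hL
  refine hnot (Pool.Agent.H622R2.InNP.of_reduces ⟨f, hf, fun x => ?_⟩ hA)
  obtain ⟨U, h1, h2, h3, h4⟩ := hfx x
  rw [h1, h U h2 h3, h4]

/-- 2D Critical Bootstrap Difficulty is EXPSPACE-hard under polynomial-time many-one reductions,
even for `k = 1`, and it is not in `NP`, neither as a language nor as a promise problem, the latter
even for `k = 1`. -/
theorem result :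
    (∀ L : Set (List Bool), InEXPSPACE L → ∃ f : List Bool → List Bool, PolyTime f ∧
      ∀ x, ∃ U : Family, f x = bits (U, 1) ∧ IsFamily U ∧ Critical U ∧ (x ∈ L ↔ diff U ≤ 1)) ∧
    (¬ ∃ A : Set (List Bool), InNP A ∧
      ∀ U : Family, IsFamily U → Critical U → (bits (U, 1) ∈ A ↔ diff U ≤ 1)) ∧
    ¬ InNPP (fun q : Family × ℕ => IsFamily q.1 ∧ Critical q.1 ∧ diff q.1 ≤ q.2) := by
  refine ⟨fun L hL => hard hL, promise, fun hcon => promise ⟨_, hcon, fun U h1 h2 => ?_⟩⟩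
  constructor
  · rintro ⟨q, hq, _, _, h3⟩
    have e : q = (U, 1) := TEnc.inj (T.enc_injective hq)
    subst e
    exact_mod_cast h3
  · intro h
    exact ⟨(U, 1), rfl, h1, h2, by exact_mod_cast h⟩

end Pool.Agent.Results.MP_3da8ac_lc.ExpspaceHardNotNP
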